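import Pool.Agent.H28.RC.Basic
import Pool.Agent.H87.HK.UI

/-!
# Hecke L-functions of ray class characters: invariance of the theta series under units (UI)
-/

set_option autoImplicit false

open NumberField NumberField.InfinitePlace NumberField.Units
  NumberField.Units.dirichletUnitTheorem MeasureTheory Set Filter Complex
open scoped nonZeroDivisors ENNReal

namespace Pool.Agent.H71.RC

open Pool.Agent.H28.RC Pool.Agent.H25.HK Pool.Agent.H25

section
variable {K : Type} [Field K] [NumberField K]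

lemma unit_ne (u : (𝓞 K)ˣ) : (u : K) ≠ 0 := fun h0 => by
  have h := Pool.Agent.H87.HK.unit_inv_mul u
  rw [h0, mul_zero] at h
  exact zero_ne_one h

lemma unit_pos (u : (𝓞 K)ˣ) (v : InfinitePlace K) : 0 < v (u : K) := by
  rw [NumberField.InfinitePlace.pos_iff]
  exact unit_ne u

lemma exp_yc (h : T_YC) (τ : ℝ) (z : logSpace K) (u : (𝓞 K)ˣ) (v : InfinitePlace K) :
    Real.exp (yc K τ (z + logEmbedding K (Additive.ofMul u)) v / 2) =
      Real.exp (yc K τ z v / 2) * v (u : K) := by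
  rw [(h K).2.2.1, add_div, Real.exp_add, mul_div_cancel_left₀ _ two_ne_zero,
    Real.exp_log (unit_pos u v)]

/-- the sign times the real embedding is the absolute value -/
lemma sg1_mul_re (v : RP K) {x : K} (hx : x ≠ 0) : sg1 v x * (re v x : ℂ) = (v.1 x : ℝ) := by
  rw [← abs_re]
  unfold sg1
  have h1 := re_ne v hx
  rcases lt_or_gt_of_ne h1 with h3 | h3
  · rw [if_neg h3.not_gt, abs_of_neg h3]
    push_cast
    ring
  · rw [if_pos h3, abs_of_pos h3]
    ring

lemma sg_mul_ws_unit (h : T_YC) (S : Finset (RP K)) (τ : ℝ) (z : logSpace K) (u : (𝓞 K)ˣ)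
    (x : K) :
    sg K S (u : K) * (ws K S (yc K τ z) ((u : K) * x) : ℂ) =
      (ws K S (yc K τ (z + logEmbedding K (Additive.ofMul u))) x : ℂ) := by
  unfold ws
  rw [sg_eq]
  push_cast
  rw [← Finset.prod_mul_distrib]
  refine Finset.prod_congr rfl fun v _ => ?_
  have h2 := exp_yc h τ z u v.1
  have h3 := sg1_mul_re v (unit_ne u)
  rw [re_mul]
  calc sg1 v (u : K) * (cexp ((yc K τ z v.1 : ℂ) / 2) * ((re v (u : K) * re v x : ℝ) : ℂ))
      = cexp ((yc K τ z v.1 : ℂ) / 2) * (sg1 v (u : K) * (re v (u : K) : ℂ)) *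
          (re v x : ℂ) := by push_cast; ring
    _ = ((Real.exp (yc K τ z v.1 / 2) * v.1 (u : K) : ℝ) : ℂ) * (re v x : ℂ) := by
        rw [h3]; push_cast; ring
    _ = _ := by
        rw [← h2]; push_cast; ring

end

theorem pf_UI : T_YC → T_UI → T_CM → T_UIc := by
  intro h hUI hCM K _ _ χ M τ z u hM
  refine ⟨fun S x => ?_, ?_⟩
  · rw [abs_ws, abs_ws]
    refine Finset.prod_congr rfl fun v _ => ?_
    rw [exp_yc h, map_mul]
    ring
  · unfold tf
    rw [← (Pool.Agent.H87.HK.uE M u).tsum_eq (fun x : {x : K // x ∈ M} => cf χ M x *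
      ((ws K χ.S (yc K τ z) x * Real.exp (-Real.pi * qK K (yc K τ z) x) : ℝ) : ℂ))]
    refine tsum_congr fun x => ?_
    have h1 := (hUI K M τ z u).1 (x : K)
    have h2 := (hCM K χ M hM).2.2.1 u (x : K) x.2
    have h3 := sg_mul_ws_unit h χ.S τ z u (x : K)
    show cf χ M x * ((ws K χ.S (yc K τ (z + logEmbedding K (Additive.ofMul u))) x *
        Real.exp (-Real.pi * qK K (yc K τ (z + logEmbedding K (Additive.ofMul u))) x) : ℝ) : ℂ) =
      cf χ M ((u : K) * x) * ((ws K χ.S (yc K τ z) ((u : K) * x) *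
        Real.exp (-Real.pi * qK K (yc K τ z) ((u : K) * x)) : ℝ) : ℂ)
    rw [h1, h2, Complex.ofReal_mul, Complex.ofReal_mul, ← h3]
    ring

end Pool.Agent.H71.RC
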